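import Pool.Agent.Lib.Tate.All

/-!
# MP_071d69_gt (Q1): the Tate construction does not lower the chromatic height of `E_∞`-rings

The question: for `n ≥ 1` and a `K(n)`-acyclic `E_∞`-ring `R`, is `R^{tC_p}` always
`K(n-1)`-acyclic?  The answer is negative for `p = 2`, `n = 1`.

The ring `R` is the commutative symmetric ring spectrum `WS` (`Pool/Agent/Lib/Tate/WitDefs.lean`):
`R_A` is the space of finite configurations of points in `(ℝ × ℂ)^A`, labelled by mutually
orthogonal subspaces of `(ℂ⁴)^{⊗ A}`, which are invariant under the cyclic group `C₄`.  It is a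
model of `(S^{∞λ} ∧ ku_{C₄})^{C₄}`, where `ku_{C₄}` is connective equivariant K-theory and `λ` the
representation of `C₄` on `ℂ` by rotations.

All definitions which occur in the statement are in `Pool/Agent/Lib/Tate/Defs.lean` and
`Pool/Agent/Lib/Tate/DefsT.lean`.
-/

open Pool.Agent.Tate

/-- There is a commutative symmetric ring spectrum `R` (a model of an `E_∞`-ring), semistable with
Hausdorff and well-pointed spaces, such that `K(1) ∧ R = 0` and `K(0) ∧ R^{tC₂} ≠ 0` at the
prime `2`. -/
theorem Pool.Agent.Results.MP_071d69_gt.TateNonvanishing.result :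
    ∃ R : CSRS, (∀ (A : Type) [Fintype A] [DecidableEq A], T2Space (R.X A)) ∧
      (∀ (A : Type) [Fintype A] [DecidableEq A], WellPointed (R.X A) (R.pt A)) ∧
      R.Semistable ∧ R.K1Acyclic ∧ ¬ R.TateK0Acyclic :=
  ⟨WS, fun A _ _ => WS_T2 A, fun A _ _ => WS_WP A, WS_semistable, WS_K1, WS_not_acyclic⟩
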